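import Pool.Agent.Helper10.Ram5.Lib

set_option autoImplicit false

/-!
# Module G_alg : algebra of the action of `GL₂(ℍ)` on hyperbolic 5-space
-/

namespace Pool.Agent.Helper13.Ram5

open Pool.Agent.Helper10.Ram5
open MeasureTheory Topology Quaternion
open scoped Quaternion

theorem re_mul_comm (x y : ℍ[ℝ]) : (x * y).re = (y * x).re := by
  simp only [Quaternion.re_mul]; ring

theorem nsq (x : ℍ[ℝ]) : ‖x‖ ^ 2 = normSq x := by
  rw [Quaternion.normSq_eq_norm_mul_self, sq]

theorem re_star_mul (x y : ℍ[ℝ]) : (x * star y).re = (y * star x).re := by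
  have : star (x * star y) = y * star x := by rw [star_mul, star_star]
  rw [← this, Quaternion.re_star]

theorem re_two (x y : ℍ[ℝ]) : (x * y).re + (x * star y).re = 2 * x.re * y.re := by
  simp only [Quaternion.re_mul, Quaternion.re_star, Quaternion.imI_star, Quaternion.imJ_star,
    Quaternion.imK_star]
  ring

theorem re_coe_mul (s : ℝ) (x : ℍ[ℝ]) : ((s : ℍ[ℝ]) * x).re = s * x.re := by
  rw [Quaternion.coe_mul_eq_smul, Quaternion.re_smul, smul_eq_mul]

/-- the determinant identity `det (g H g*) = nrd g * det H` -/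
theorem det_key (a b c d h : ℍ[ℝ]) (s t : ℝ) :
    (normSq a * s + normSq b * t + 2 * (a * h * star b).re) *
        (normSq c * s + normSq d * t + 2 * (c * h * star d).re)
      - normSq (s • (a * star c) + t • (b * star d) + (a * h * star d + b * star h * star c))
      = (normSq a * normSq d + normSq b * normSq c - 2 * (a * star c * d * star b).re)
        * (s * t - normSq h) := by
  have n1 : normSq (s • (a * star c)) = s ^ 2 * (normSq a * normSq c) := by
    rw [Quaternion.normSq_smul, map_mul, Quaternion.normSq_star]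
  have n2 : normSq (t • (b * star d)) = t ^ 2 * (normSq b * normSq d) := by
    rw [Quaternion.normSq_smul, map_mul, Quaternion.normSq_star]
  have n3 : normSq (a * h * star d) = normSq a * normSq h * normSq d := by
    rw [map_mul, map_mul, Quaternion.normSq_star]
  have n4 : normSq (b * star h * star c) = normSq b * normSq h * normSq c := by
    rw [map_mul, map_mul, Quaternion.normSq_star, Quaternion.normSq_star]
  have c12 : (s • (a * star c) * star (t • (b * star d))).re
      = s * t * (a * star c * d * star b).re := by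
    rw [Quaternion.star_smul, star_mul, star_star, smul_mul_smul_comm, Quaternion.re_smul,
      smul_eq_mul]
    simp only [mul_assoc]
  have hc : (star c * d * star h).re = (c * h * star d).re := by
    rw [← Quaternion.re_star (star c * d * star h), star_mul, star_mul, star_star, star_star,
      ← mul_assoc, re_mul_comm, ← mul_assoc]
  have c13 : (s • (a * star c) * star (a * h * star d)).re = s * normSq a * (c * h * star d).re := by
    rw [star_mul, star_mul, star_star, smul_mul_assoc, Quaternion.re_smul, smul_eq_mul,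
      show a * star c * (d * (star h * star a)) = a * (star c * d * star h * star a) by
        simp only [mul_assoc],
      re_mul_comm, mul_assoc (star c * d * star h), Quaternion.star_mul_self,
      ← Quaternion.coe_commutes, re_coe_mul, hc]
    ring
  have c14 : (s • (a * star c) * star (b * star h * star c)).re
      = s * normSq c * (a * h * star b).re := by
    rw [star_mul, star_mul, star_star, star_star, smul_mul_assoc, Quaternion.re_smul, smul_eq_mul,
      show a * star c * (c * (h * star b)) = a * ((star c * c) * (h * star b)) by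
        simp only [mul_assoc], Quaternion.star_mul_self, Quaternion.coe_mul_eq_smul,
      mul_smul_comm, Quaternion.re_smul, smul_eq_mul, ← mul_assoc a h]
    ring
  have c23 : (t • (b * star d) * star (a * h * star d)).re
      = t * normSq d * (a * h * star b).re := by
    rw [star_mul, star_mul, star_star, smul_mul_assoc, Quaternion.re_smul, smul_eq_mul,
      show b * star d * (d * (star h * star a)) = b * ((star d * d) * (star h * star a)) by
        simp only [mul_assoc], Quaternion.star_mul_self, Quaternion.coe_mul_eq_smul,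
      mul_smul_comm, Quaternion.re_smul, smul_eq_mul, ← Quaternion.re_star, star_mul, star_mul,
      star_star, star_star]
    ring
  have c24 : (t • (b * star d) * star (b * star h * star c)).re
      = t * normSq b * (c * h * star d).re := by
    rw [star_mul, star_mul, star_star, star_star, smul_mul_assoc, Quaternion.re_smul, smul_eq_mul,
      show b * star d * (c * (h * star b)) = b * (star d * c * h * star b) by
        simp only [mul_assoc],
      re_mul_comm, mul_assoc (star d * c * h), Quaternion.star_mul_self,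
      ← Quaternion.coe_commutes, re_coe_mul, mul_assoc (star d), re_mul_comm (star d)]
    ring
  have c34 : (a * h * star d * star (b * star h * star c)).re
      = 2 * (a * h * star b).re * (c * h * star d).re - normSq h * (a * star c * d * star b).re := by
    have h1 := re_two (star b * (a * h)) (star d * (c * h))
    rw [re_mul_comm (star b) (a * h), re_mul_comm (star d) (c * h)] at h1
    have h2 : (a * h * star d * star (b * star h * star c)).re
        = (star b * (a * h) * (star d * (c * h))).re := by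
      rw [star_mul, star_mul, star_star, star_star, mul_assoc (star b), re_mul_comm (star b)]
      simp only [mul_assoc]
    have h3 : (star b * (a * h) * star (star d * (c * h))).re
        = normSq h * (a * star c * d * star b).re := by
      rw [star_mul, star_mul, star_star,
        show star b * (a * h) * (star h * star c * d) = star b * (a * ((h * star h) * (star c * d)))
          by simp only [mul_assoc], Quaternion.self_mul_star, Quaternion.coe_mul_eq_smul,
        mul_smul_comm, mul_smul_comm, Quaternion.re_smul, smul_eq_mul, re_mul_comm]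
      simp only [mul_assoc]
    rw [h2]
    linarith
  have ex : ((s • (a * star c) + t • (b * star d)) * star (a * h * star d + b * star h * star c)).re
      = s * normSq a * (c * h * star d).re + t * normSq d * (a * h * star b).re
        + (s * normSq c * (a * h * star b).re + t * normSq b * (c * h * star d).re) := by
    rw [← c13, ← c14, ← c23, ← c24, star_add, mul_add, add_mul, add_mul]
    simp only [Quaternion.re_add]
  rw [Quaternion.normSq_add, Quaternion.normSq_add, Quaternion.normSq_add, ex, n1, n2, n3, n4,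
    c12, c34]
  ring

/-- the Hermitian matrix `(s h; h* t)` -/
noncomputable def hm (s : ℝ) (h : ℍ[ℝ]) (t : ℝ) : Matrix (Fin 2) (Fin 2) ℍ[ℝ] :=
  !![(s : ℍ[ℝ]), h; star h, (t : ℍ[ℝ])]

theorem coe_re (s : ℝ) : ((s : ℍ[ℝ])).re = s := rfl

/-- entries of `g H g*` -/
theorem conj_entries (g : Matrix (Fin 2) (Fin 2) ℍ[ℝ]) (s t : ℝ) (h : ℍ[ℝ]) :
    g * hm s h t * g.conjTranspose =
      hm (normSq (g 0 0) * s + normSq (g 0 1) * t + 2 * (g 0 0 * h * star (g 0 1)).re)
        (s • (g 0 0 * star (g 1 0)) + t • (g 0 1 * star (g 1 1))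
          + (g 0 0 * h * star (g 1 1) + g 0 1 * star h * star (g 1 0)))
        (normSq (g 1 0) * s + normSq (g 1 1) * t + 2 * (g 1 0 * h * star (g 1 1)).re) := by
  have key : ∀ (x y : ℍ[ℝ]), (x * s + y * star h) * star x + (x * h + y * t) * star y
      = ((normSq x * s + normSq y * t + 2 * (x * h * star y).re : ℝ) : ℍ[ℝ]) := by
    intro x y
    have e1 : x * s * star x = ((normSq x * s : ℝ) : ℍ[ℝ]) := by
      rw [mul_assoc, Quaternion.coe_commutes, ← mul_assoc, Quaternion.self_mul_star,
        ← Quaternion.coe_mul]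
    have e2 : y * t * star y = ((normSq y * t : ℝ) : ℍ[ℝ]) := by
      rw [mul_assoc, Quaternion.coe_commutes, ← mul_assoc, Quaternion.self_mul_star,
        ← Quaternion.coe_mul]
    have e3 : y * star h * star x = star (x * h * star y) := by
      rw [star_mul, star_mul, star_star, mul_assoc]
    have e4 : x * h * star y + star (x * h * star y) = ((2 * (x * h * star y).re : ℝ) : ℍ[ℝ]) :=
      Quaternion.self_add_star' _
    rw [add_mul, add_mul, e1, e2, e3, Quaternion.coe_add, Quaternion.coe_add, ← e4]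
    abel
  have key2 : ∀ (a b c d : ℍ[ℝ]), (a * s + b * star h) * star c + (a * h + b * t) * star d
      = s • (a * star c) + t • (b * star d) + (a * h * star d + b * star h * star c) := by
    intro a b c d
    rw [← Quaternion.coe_commutes, ← Quaternion.coe_commutes, Quaternion.coe_mul_eq_smul,
      Quaternion.coe_mul_eq_smul, add_mul, add_mul, smul_mul_assoc, smul_mul_assoc]
    abel
  refine Matrix.ext fun i j => ?_
  fin_cases i <;> fin_cases j
  · change (g * hm s h t * g.conjTranspose) 0 0 = _
    simp only [Matrix.mul_apply, Fin.sum_univ_two, Matrix.conjTranspose_apply]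
    exact key (g 0 0) (g 0 1)
  · change (g * hm s h t * g.conjTranspose) 0 1 = _
    simp only [Matrix.mul_apply, Fin.sum_univ_two, Matrix.conjTranspose_apply]
    exact key2 (g 0 0) (g 0 1) (g 1 0) (g 1 1)
  · change (g * hm s h t * g.conjTranspose) 1 0 = star _
    simp only [Matrix.mul_apply, Fin.sum_univ_two, Matrix.conjTranspose_apply]
    change (g 1 0 * (s : ℍ[ℝ]) + g 1 1 * star h) * star (g 0 0)
      + (g 1 0 * h + g 1 1 * (t : ℍ[ℝ])) * star (g 0 1) = _
    rw [key2]
    simp only [star_add, Quaternion.star_smul, star_mul, star_star, mul_assoc]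
    abel
  · change (g * hm s h t * g.conjTranspose) 1 1 = _
    simp only [Matrix.mul_apply, Fin.sum_univ_two, Matrix.conjTranspose_apply]
    exact key (g 1 0) (g 1 1)

/-- determinant of a Hermitian matrix -/
noncomputable def hdet (H : Matrix (Fin 2) (Fin 2) ℍ[ℝ]) : ℝ :=
  (H 0 0).re * (H 1 1).re - normSq (H 0 1)

theorem hdet_hm (s t : ℝ) (h : ℍ[ℝ]) : hdet (hm s h t) = s * t - normSq h := rfl

theorem nrd_eq (g : Matrix (Fin 2) (Fin 2) ℍ[ℝ]) :
    nrd g = normSq (g 0 0) * normSq (g 1 1) + normSq (g 0 1) * normSq (g 1 0)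
      - 2 * (g 0 0 * star (g 1 0) * g 1 1 * star (g 0 1)).re := by
  unfold nrd
  simp only [nsq]

theorem hdet_conj (g : Matrix (Fin 2) (Fin 2) ℍ[ℝ]) (s t : ℝ) (h : ℍ[ℝ]) :
    hdet (g * hm s h t * g.conjTranspose) = nrd g * hdet (hm s h t) := by
  rw [conj_entries, hdet_hm, hdet_hm, det_key, nrd_eq]

theorem hm_one : hm 1 0 1 = 1 := by
  refine Matrix.ext fun i j => ?_
  fin_cases i <;> fin_cases j <;> simp [hm]

theorem nrd_eq_hdet (g : Matrix (Fin 2) (Fin 2) ℍ[ℝ]) : nrd g = hdet (g * g.conjTranspose) := by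
  have := hdet_conj g 1 1 0
  rw [hm_one, mul_one] at this
  rw [this]
  simp [hdet]

theorem nrd_mul' (g h : Matrix (Fin 2) (Fin 2) ℍ[ℝ]) : nrd (g * h) = nrd g * nrd h := by
  have h1 : h * h.conjTranspose = h * hm 1 0 1 * h.conjTranspose := by rw [hm_one, mul_one]
  rw [nrd_eq_hdet (g * h), Matrix.conjTranspose_mul,
    show g * h * (h.conjTranspose * g.conjTranspose) = g * (h * h.conjTranspose) * g.conjTranspose
      by simp only [mul_assoc], h1, conj_entries, hdet_conj, ← conj_entries, ← h1, ← nrd_eq_hdet]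

/-! ## Module G_alg -/

theorem nrd_mul (g h : GL2H) : nrd (g * h).1 = nrd g.1 * nrd h.1 := nrd_mul' g.1 h.1

theorem re_le_norm (x : ℍ[ℝ]) : x.re ≤ ‖x‖ := by
  apply le_of_sq_le_sq _ (norm_nonneg x)
  rw [nsq, Quaternion.normSq_def']
  nlinarith [sq_nonneg x.imI, sq_nonneg x.imJ, sq_nonneg x.imK]

theorem nrd_nonneg (g : Matrix (Fin 2) (Fin 2) ℍ[ℝ]) : 0 ≤ nrd g := by
  unfold nrd
  have h := re_le_norm (g 0 0 * star (g 1 0) * g 1 1 * star (g 0 1))
  rw [norm_mul, norm_mul, norm_mul, norm_star, norm_star] at h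
  nlinarith [sq_nonneg (‖g 0 0‖ * ‖g 1 1‖ - ‖g 0 1‖ * ‖g 1 0‖)]

theorem nrd_one' : nrd (1 : GL2H).1 = 1 := by
  simp [nrd]

theorem nrd_inv (g : GL2H) (hg : nrd g.1 = 1) : nrd (g⁻¹).1 = 1 := by
  have := nrd_mul g g⁻¹
  rw [mul_inv_cancel, nrd_one', hg, one_mul] at this
  exact this.symm

theorem nrd_trans (x : ℍ[ℝ]) : nrd (trans x).1 = 1 := by
  simp [nrd, Pool.Agent.Helper10.Ram5.trans]

theorem den_pos (g : GL2H) {p : Pt} (hp : p ∈ UH) : 0 < den g p := by
  have hr : 0 < p.2 := hp
  have h0 : 0 ≤ den g p := by unfold den; positivity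
  rcases h0.lt_or_eq with h | h
  · exact h
  · exfalso
    unfold den at h
    have h1 : ‖g.1 1 0‖ ^ 2 * p.2 ^ 2 = 0 := by
      have := sq_nonneg ‖g.1 1 0 * p.1 + g.1 1 1‖
      have h2 : 0 ≤ ‖g.1 1 0‖ ^ 2 * p.2 ^ 2 := by positivity
      linarith
    have h2 : ‖g.1 1 0 * p.1 + g.1 1 1‖ ^ 2 = 0 := by linarith
    have hc : g.1 1 0 = 0 := by
      rcases mul_eq_zero.1 h1 with h | h
      · exact norm_eq_zero.1 (pow_eq_zero_iff (two_ne_zero) |>.1 h)
      · exact absurd h (by positivity)
    have hd : g.1 1 1 = 0 := by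
      have := norm_eq_zero.1 (pow_eq_zero_iff (two_ne_zero) |>.1 h2)
      rw [hc, zero_mul, zero_add] at this
      exact this
    have h3 : (g.1 * (g⁻¹).1) 1 1 = 1 := by
      rw [Units.mul_inv_eq_one.2 rfl]
      rfl
    rw [Matrix.mul_apply, Fin.sum_univ_two, hc, hd] at h3
    simp at h3

theorem act_mem (g : GL2H) {p : Pt} (hp : p ∈ UH) : act g p ∈ UH :=
  div_pos hp (den_pos g hp)

theorem act_one (p : Pt) : act 1 p = p := by
  have h : den 1 p = 1 := by simp [den]
  unfold act
  rw [h]
  ext <;> simp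

theorem act_trans (x : ℍ[ℝ]) (p : Pt) : act (trans x) p = (p.1 + x, p.2) := by
  have h : den (trans x) p = 1 := by simp [den, Pool.Agent.Helper10.Ram5.trans]
  unfold act
  rw [h]
  simp [Pool.Agent.Helper10.Ram5.trans]

/-- the Hermitian matrix of a point -/
noncomputable def HP (p : Pt) : Matrix (Fin 2) (Fin 2) ℍ[ℝ] := hm (normSq p.1 + p.2 ^ 2) p.1 1

theorem row_eq (a b z : ℍ[ℝ]) (r : ℝ) :
    normSq a * (normSq z + r ^ 2) + normSq b * 1 + 2 * (a * z * star b).re
      = ‖a * z + b‖ ^ 2 + ‖a‖ ^ 2 * r ^ 2 := by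
  rw [nsq, nsq, Quaternion.normSq_add, map_mul]
  ring

/-- `g H_p g*`, explicit entries -/
theorem conj_HP (g : GL2H) (p : Pt) :
    g.1 * HP p * g.1.conjTranspose =
      hm (‖g.1 0 0 * p.1 + g.1 0 1‖ ^ 2 + ‖g.1 0 0‖ ^ 2 * p.2 ^ 2)
        ((g.1 0 0 * p.1 + g.1 0 1) * star (g.1 1 0 * p.1 + g.1 1 1)
          + p.2 ^ 2 • (g.1 0 0 * star (g.1 1 0))) (den g p) := by
  unfold HP
  rw [conj_entries, row_eq, row_eq]
  congr 1
  have h1 : g.1 0 0 * p.1 * (star p.1 * star (g.1 1 0))
      = normSq p.1 • (g.1 0 0 * star (g.1 1 0)) := by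
    rw [show g.1 0 0 * p.1 * (star p.1 * star (g.1 1 0))
      = g.1 0 0 * ((p.1 * star p.1) * star (g.1 1 0)) by simp only [mul_assoc],
      Quaternion.self_mul_star, Quaternion.coe_mul_eq_smul, mul_smul_comm]
  rw [star_add, star_mul, mul_add, add_mul, add_mul, h1, add_smul, one_smul,
    mul_assoc (g.1 0 1) (star p.1)]
  abel

theorem hm_smul (D s t : ℝ) (h : ℍ[ℝ]) : D • hm s h t = hm (D * s) (D • h) (D * t) := by
  refine Matrix.ext fun i j => ?_
  fin_cases i <;> fin_cases j
  · change D • (s : ℍ[ℝ]) = ((D * s : ℝ) : ℍ[ℝ])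
    rw [← Quaternion.coe_mul_eq_smul, Quaternion.coe_mul]
  · rfl
  · change D • star h = star (D • h)
    rw [Quaternion.star_smul]
  · change D • (t : ℍ[ℝ]) = ((D * t : ℝ) : ℍ[ℝ])
    rw [← Quaternion.coe_mul_eq_smul, Quaternion.coe_mul]

theorem hdet_HP (p : Pt) : hdet (HP p) = p.2 ^ 2 := by
  unfold HP; rw [hdet_hm]; ring

/-- `|a z + b|² + |a|² r² = (|z'|² + r'²) den` where `(z', r') = act g (z, r)` -/
theorem top_row (g : GL2H) (hg : nrd g.1 = 1) {p : Pt} (hp : p ∈ UH) :
    ‖g.1 0 0 * p.1 + g.1 0 1‖ ^ 2 + ‖g.1 0 0‖ ^ 2 * p.2 ^ 2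
      = (‖(act g p).1‖ ^ 2 + (act g p).2 ^ 2) * den g p := by
  have hD := den_pos g hp
  have h1 : hdet (g.1 * HP p * g.1.conjTranspose) = p.2 ^ 2 := by
    have : HP p = hm (normSq p.1 + p.2 ^ 2) p.1 1 := rfl
    rw [this, hdet_conj, ← this, hdet_HP, hg, one_mul]
  rw [conj_HP, hdet_hm] at h1
  have e1 : (act g p).1 = (den g p)⁻¹ • ((g.1 0 0 * p.1 + g.1 0 1) * star (g.1 1 0 * p.1 + g.1 1 1)
      + p.2 ^ 2 • (g.1 0 0 * star (g.1 1 0))) := rfl
  have e2 : (act g p).2 = p.2 / den g p := rfl
  rw [e1, e2, nsq ((den g p)⁻¹ • _), Quaternion.normSq_smul]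
  field_simp
  linear_combination h1

/-- the action in terms of Hermitian matrices -/
theorem HP_act (g : GL2H) (hg : nrd g.1 = 1) {p : Pt} (hp : p ∈ UH) :
    g.1 * HP p * g.1.conjTranspose = den g p • HP (act g p) := by
  have hD := den_pos g hp
  unfold HP
  rw [hm_smul, ← HP, conj_HP, top_row g hg hp, nsq]
  congr 1
  · ring
  · change _ = den g p • ((den g p)⁻¹ • _)
    rw [smul_smul, mul_inv_cancel₀ hD.ne', one_smul]
  · ring

theorem conj_mul (g h : GL2H) (hh : nrd h.1 = 1) {p : Pt} (hp : p ∈ UH) :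
    (g * h).1 * HP p * (g * h).1.conjTranspose
      = den h p • (g.1 * HP (act h p) * g.1.conjTranspose) := by
  rw [Units.val_mul, Matrix.conjTranspose_mul,
    show g.1 * h.1 * HP p * (h.1.conjTranspose * g.1.conjTranspose)
      = g.1 * (h.1 * HP p * h.1.conjTranspose) * g.1.conjTranspose by simp only [mul_assoc],
    HP_act h hh hp, Matrix.mul_smul, Matrix.smul_mul]

theorem hm_inj {s t s' t' : ℝ} {h h' : ℍ[ℝ]} (H : hm s h t = hm s' h' t') :
    s = s' ∧ h = h' ∧ t = t' := by
  have h1 := congrFun (congrFun H 0) 0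
  have h2 := congrFun (congrFun H 0) 1
  have h3 := congrFun (congrFun H 1) 1
  exact ⟨Quaternion.coe_injective h1, h2, Quaternion.coe_injective h3⟩

theorem den_mul (g h : GL2H) (hh : nrd h.1 = 1) {p : Pt} (hp : p ∈ UH) :
    den (g * h) p = den g (act h p) * den h p := by
  have := conj_mul g h hh hp
  rw [conj_HP, conj_HP, hm_smul] at this
  rw [(hm_inj this).2.2, mul_comm]

theorem act_mul (g h : GL2H) (hh : nrd h.1 = 1) {p : Pt} (hp : p ∈ UH) :
    act (g * h) p = act g (act h p) := by
  have := conj_mul g h hh hp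
  rw [conj_HP, conj_HP, hm_smul] at this
  have h2 := (hm_inj this).2.1
  have hD := den_mul g h hh hp
  have hD1 := (den_pos h hp).ne'
  have hD2 := (den_pos g (act_mem h hp)).ne'
  refine Prod.ext ?_ ?_
  · change (den (g * h) p)⁻¹ • _ = (den g (act h p))⁻¹ • _
    rw [h2, hD, smul_smul]
    congr 1
    field_simp
  · change p.2 / den (g * h) p = (p.2 / den h p) / den g (act h p)
    rw [hD]
    field_simp

theorem hm_add (s t s' t' : ℝ) (h h' : ℍ[ℝ]) :
    hm s h t + hm s' h' t' = hm (s + s') (h + h') (t + t') := by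
  refine Matrix.ext fun i j => ?_
  fin_cases i <;> fin_cases j
  · change (s : ℍ[ℝ]) + (s' : ℍ[ℝ]) = ((s + s' : ℝ) : ℍ[ℝ])
    rw [Quaternion.coe_add]
  · rfl
  · change star h + star h' = star (h + h')
    rw [star_add]
  · change (t : ℍ[ℝ]) + (t' : ℍ[ℝ]) = ((t + t' : ℝ) : ℍ[ℝ])
    rw [Quaternion.coe_add]

/-- the action multiplies Euclidean distances by the square root of the product of the height
ratios -/
theorem dist_act (g : GL2H) (hg : nrd g.1 = 1) {p q : Pt} (hp : p ∈ UH) (hq : q ∈ UH) :
    (‖(act g p).1 - (act g q).1‖ ^ 2 + ((act g p).2 - (act g q).2) ^ 2) * (den g p * den g q)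
      = ‖p.1 - q.1‖ ^ 2 + (p.2 - q.2) ^ 2 := by
  have hDp := (den_pos g hp).ne'
  have hDq := (den_pos g hq).ne'
  have e : ∀ z w : ℍ[ℝ], normSq (z - w) = normSq z + normSq w - 2 * (z * star w).re := by
    intro z w
    rw [sub_eq_add_neg, Quaternion.normSq_add, Quaternion.normSq_neg, star_neg, mul_neg,
      Quaternion.re_neg]
    ring
  have h1 : hdet (g.1 * (HP p + HP q) * g.1.conjTranspose) = hdet (HP p + HP q) := by
    unfold HP
    rw [hm_add, hdet_conj, hg, one_mul]
  rw [mul_add, add_mul, HP_act g hg hp, HP_act g hg hq] at h1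
  have r1 : (act g p).2 * den g p = p.2 := div_mul_cancel₀ _ hDp
  have r2 : (act g q).2 * den g q = q.2 := div_mul_cancel₀ _ hDq
  generalize act g p = p' at *
  generalize act g q = q' at *
  generalize den g p = D at *
  generalize den g q = E at *
  unfold HP at h1
  rw [hm_smul, hm_smul, hm_add, hm_add, hdet_hm, hdet_hm, Quaternion.normSq_add,
    Quaternion.normSq_add, Quaternion.normSq_smul, Quaternion.normSq_smul,
    Quaternion.star_smul, smul_mul_smul_comm, Quaternion.re_smul, smul_eq_mul] at h1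
  rw [nsq, nsq, e, e]
  rw [← r1, ← r2] at *
  linear_combination h1

end Pool.Agent.Helper13.Ram5
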