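import Pool.Agent.Helper13.Ram5.Energy1

set_option autoImplicit false

namespace Pool.Agent.Helper13.Ram5

open Pool.Agent.Helper10.Ram5
open Pool.Agent.Helper68.Ram5 (gdot_comp_act measurePreserving_act)
open Pool.Agent.Helper64.Ram5 (contDiffOn_act1 entry_mem local_finite)
open MeasureTheory Topology
open scoped Quaternion

theorem tsupport_kap {R : Subring ℍ[ℝ]} {κ : Pt → ℝ} {C a : ℝ} (hK : Kap R κ C a) {p : Pt}
    (hp : p ∈ tsupport κ) : ‖p.1‖ ≤ C ∧ a ≤ p.2 := by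
  have hcl : IsClosed {q : Pt | ‖q.1‖ ≤ C ∧ a ≤ q.2} :=
    IsClosed.and (isClosed_le (continuous_norm.comp continuous_fst) continuous_const)
      (isClosed_le continuous_const continuous_snd)
  have hsub : tsupport κ ⊆ {q : Pt | ‖q.1‖ ≤ C ∧ a ≤ q.2} :=
    closure_minimal (fun q hq => hK.supp q hq) hcl
  exact hsub hp

theorem tsupport_cc {κ : Pt → ℝ} {p : Pt} (hp : p ∈ tsupport (cc κ)) : p ∈ tsupport κ := by
  refine closure_mono ?_ hp
  intro q hq h
  exact hq (by unfold cc; rw [h]; simp)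

theorem Gop_kap_off {R : Subring ℍ[ℝ]} {κ : Pt → ℝ} {C a : ℝ} (hK : Kap R κ C a)
    {ι : Type} [Fintype ι] (u : ι → Pt → ℂ) {p : Pt} (hp : ¬ (‖p.1‖ ≤ C ∧ a ≤ p.2)) :
    Gop u (cc κ) p = 0 :=
  Gop_off u fun h => hp (tsupport_kap hK (tsupport_cc h))

/-- the finite set of relevant group elements -/
theorem exists_T {R : Subring ℍ[ℝ]} (hR : NiceRing R) {κ : Pt → ℝ} {C a : ℝ} (hK : Kap R κ C a)
    (ρ : ℝ) : ∃ T : Finset (Gam R), (∀ p ∈ box (C + 1) (a / 2) (ρ + 1),
      ∑ γ ∈ T, κ (act γ p) = 1 ∧ ∑ γ ∈ T, κ (act (γ⁻¹ : Gam R) p) = 1) := by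
  classical
  have ha : 0 < a / 2 := by have := hK.pos; linarith
  have hfin := finite_of_compact hR (isCompact_box (C + 1) (a / 2) (ρ + 1)) (box_subset ha) C a
    hK.pos
  set T0 := hfin.toFinset with hT0
  set T := T0 ∪ T0.image (fun γ => γ⁻¹) with hT
  have hinv : ∀ γ, γ ∈ T → γ⁻¹ ∈ T := by
    intro γ hγ
    rw [hT, Finset.mem_union, Finset.mem_image] at hγ ⊢
    rcases hγ with h | ⟨δ, hδ, rfl⟩
    · exact Or.inr ⟨γ, h, rfl⟩
    · left; rwa [inv_inv]
  have hoff : ∀ p ∈ box (C + 1) (a / 2) (ρ + 1), ∀ γ : Gam R, γ ∉ T → κ (act γ p) = 0 := by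
    intro p hp γ hγ
    by_contra hne
    apply hγ
    rw [hT, Finset.mem_union]
    left
    rw [hT0, Set.Finite.mem_toFinset]
    exact ⟨p, hp, hK.supp _ hne⟩
  refine ⟨T, fun p hp => ?_⟩
  have h1 : ∑ γ ∈ T, κ (act γ p) = 1 :=
    (hasSum_sum_of_ne_finset_zero (hoff p hp)).unique (hK.sum p (box_subset ha hp))
  refine ⟨h1, ?_⟩
  rw [← h1]
  refine Finset.sum_nbij' (fun γ => γ⁻¹) (fun γ => γ⁻¹) ?_ ?_ ?_ ?_ ?_
  · intro γ hγ; exact hinv γ hγ
  · intro γ hγ; exact hinv γ hγ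
  · intro γ _; exact inv_inv γ
  · intro γ _; exact inv_inv γ
  · intro γ _; rfl

theorem pd_const (e : Pt) (c : ℂ) (p : Pt) : pd e (fun _ => c) p = 0 := by
  unfold pd; simp

theorem Gop_const {ι : Type} [Fintype ι] (u : ι → Pt → ℂ) (c : ℂ) (p : Pt) :
    Gop u (fun _ => c) p = 0 := by
  unfold Gop gdot
  simp [pd_const]

theorem Gop_sum {ι : Type} [Fintype ι] (u : ι → Pt → ℂ) {α : Type*} (T : Finset α)
    {v : α → Pt → ℂ} {p : Pt} (hv : ∀ j ∈ T, DifferentiableAt ℝ (v j) p) :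
    Gop u (fun q => ∑ j ∈ T, v j q) p = ∑ j ∈ T, Gop u (v j) p := by
  have hpd : ∀ e, pd e (fun q => ∑ j ∈ T, v j q) p = ∑ j ∈ T, pd e (v j) p := by
    intro e
    unfold pd
    rw [fderiv_fun_sum hv]
    simp
  unfold Gop
  rw [Finset.sum_comm]
  refine Finset.sum_congr rfl fun i _ => ?_
  unfold gdot
  simp only [hpd, Finset.mul_sum]
  rw [Finset.sum_comm]

theorem integrable_act (g : GL2H) (hg : nrd g.1 = 1) {F : Pt → ℂ} (hF : Integrable F hyp) :
    Integrable (fun p => F (act g p)) hyp := by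
  have hmp := measurePreserving_act g hg
  have hF' : Integrable F (Measure.map (act g) hyp) := by rw [hmp.map_eq]; exact hF
  exact hF'.comp_measurable hmp.measurable

/-- the `κ`-gradient term integrates to zero against an invariant weight -/
theorem unfold_zero {R : Subring ℍ[ℝ]} (hR : NiceRing R) {κ : Pt → ℝ} {C a : ℝ} (hK : Kap R κ C a)
    {ι : Type} [Fintype ι] {u : ι → Pt → ℂ} (hS : Sys R ι u) {w : Pt → ℝ} {ρ : ℝ}
    (hw : Continuous w) (hw0 : ∀ p, w p ≠ 0 → p.2 ≤ ρ)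
    (hwi : ∀ γ ∈ Gam R, ∀ p ∈ UH, a ≤ p.2 → a ≤ (act γ p).2 → w (act γ p) = w p) :
    ∫ p, (w p : ℂ) * Gop u (cc κ) p ∂hyp = 0 := by
  obtain ⟨T, hT⟩ := exists_T hR hK ρ
  have ha := hK.pos
  have hu := smooth1 hS
  have hκ1 : ContDiffOn ℝ 1 (cc κ) UH := (contDiff_cc hK.smooth).contDiffOn
  have hG : ContinuousOn (Gop u (cc κ)) UH := continuousOn_Gop hu hκ1
  -- vanishing off the box
  have hoff : ∀ p, p ∉ box C a ρ → (w p : ℂ) * Gop u (cc κ) p = 0 := by
    intro p hp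
    by_contra hne
    have h1 : w p ≠ 0 := fun h => hne (by rw [h]; simp)
    have h2 : Gop u (cc κ) p ≠ 0 := fun h => hne (by rw [h]; simp)
    have h3 : ‖p.1‖ ≤ C ∧ a ≤ p.2 := by
      by_contra h
      exact h2 (Gop_kap_off hK u h)
    exact hp ⟨h3.1, h3.2, hw0 p h1⟩
  have hbox : box C a ρ ⊆ box (C + 1) (a / 2) (ρ + 1) := fun p hp =>
    ⟨by have := hp.1; linarith, by have := hp.2.1; linarith, by have := hp.2.2; linarith⟩
  have hact : ∀ g : GL2H, ContDiffOn ℝ 1 (act g) UH := fun g => contDiffOn_act1 g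
  have hκg : ∀ g : GL2H, ContDiffOn ℝ 1 (fun q => cc κ (act g q)) UH := fun g =>
    (contDiff_cc hK.smooth).comp_contDiffOn (hact g)
  -- the transformed integrand
  set H : Gam R → Pt → ℂ := fun γ q => (κ q : ℂ) * (w q : ℂ) *
    Gop u (fun q' => cc κ (act (γ⁻¹ : Gam R) q')) q with hH
  have hHc : ∀ γ : Gam R, ContinuousOn (H γ) UH := by
    intro γ
    refine ContinuousOn.mul ?_ (continuousOn_Gop hu (hκg _))
    exact ((Complex.continuous_ofReal.comp hK.smooth.continuous).mul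
      (Complex.continuous_ofReal.comp hw)).continuousOn
  have hH0 : ∀ γ : Gam R, ∀ p, p ∉ box C a ρ → H γ p = 0 := by
    intro γ p hp
    by_contra hne
    have h1 : w p ≠ 0 := fun h => hne (by simp only [hH]; rw [h]; simp)
    have h2 : κ p ≠ 0 := fun h => hne (by simp only [hH]; rw [h]; simp)
    have h3 := hK.supp p h2
    exact hp ⟨h3.1, h3.2, hw0 p h1⟩
  have hpt : ∀ γ : Gam R, ∀ p ∈ UH,
      (κ (act γ p) : ℂ) * ((w p : ℂ) * Gop u (cc κ) p) = H γ (act γ p) := by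
    intro γ p hp
    have hinv : Gop u (fun q' => cc κ (act (γ⁻¹ : Gam R) q')) (act γ p) = Gop u (cc κ) p := by
      have hd : DifferentiableAt ℝ (fun q' => cc κ (act ((γ⁻¹ : Gam R) : GL2H) q')) (act γ p) :=
        differentiableAt_of (hκg _) (act_mem _ hp)
      rw [Gop_act hR hS γ.2 hp hd]
      refine Gop_congr u ?_
      filter_upwards [isOpen_UH.mem_nhds hp] with q hq
      have : act ((γ⁻¹ : Gam R) : GL2H) (act γ q) = q := by
        rw [Subgroup.coe_inv]
        exact act_inv_act _ (hR.nrd_one _ γ.2) hq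
      rw [this]
    simp only [hH]
    rw [hinv]
    by_cases h1 : κ (act γ p) = 0
    · rw [h1]; simp
    by_cases h2 : Gop u (cc κ) p = 0
    · rw [h2]; simp
    have h3 : a ≤ (act γ p).2 := (hK.supp _ h1).2
    have h4 : a ≤ p.2 := by
      by_contra h
      exact h2 (Gop_kap_off hK u fun h' => h h'.2)
    rw [hwi γ γ.2 p hp h4 h3]
    ring
  have hstep : ∀ p ∈ UH, (w p : ℂ) * Gop u (cc κ) p
      = ∑ γ ∈ T, H γ (act γ p) := by
    intro p hp
    by_cases hb : p ∈ box C a ρ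
    · have h1 := (hT p (hbox hb)).1
      have h2 : (∑ γ ∈ T, (κ (act γ p) : ℂ)) = 1 := by exact_mod_cast h1
      calc (w p : ℂ) * Gop u (cc κ) p
          = (∑ γ ∈ T, (κ (act γ p) : ℂ)) * ((w p : ℂ) * Gop u (cc κ) p) := by rw [h2, one_mul]
        _ = ∑ γ ∈ T, H γ (act γ p) := by
            rw [Finset.sum_mul]
            exact Finset.sum_congr rfl fun γ _ => hpt γ p hp
    · rw [hoff p hb]
      symm
      refine Finset.sum_eq_zero fun γ _ => ?_
      rw [← hpt γ p hp, hoff p hb, mul_zero]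
  have hHi : ∀ γ : Gam R, Integrable (H γ) hyp := fun γ =>
    integrable_hyp (isCompact_box C a ρ) (box_subset ha) (hHc γ) (hH0 γ)
  have hHa : ∀ γ : Gam R, Integrable (fun p => H γ (act γ p)) hyp := fun γ =>
    integrable_act _ (hR.nrd_one _ γ.2) (hHi γ)
  calc ∫ p, (w p : ℂ) * Gop u (cc κ) p ∂hyp
      = ∫ p, ∑ γ ∈ T, H γ (act γ p) ∂hyp := by
        refine integral_congr_ae ?_
        filter_upwards [ae_hyp] with p hp
        exact hstep p hp
    _ = ∑ γ ∈ T, ∫ p, H γ (act γ p) ∂hyp := integral_finsetSum _ fun γ _ => hHa γ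
    _ = ∑ γ ∈ T, ∫ p, H γ p ∂hyp :=
        Finset.sum_congr rfl fun γ _ => integral_act _ (hR.nrd_one _ γ.2) (aesm_of (hHc γ))
    _ = ∫ p, ∑ γ ∈ T, H γ p ∂hyp := (integral_finsetSum _ fun γ _ => hHi γ).symm
    _ = 0 := by
        rw [← integral_zero Pt ℂ]
        refine integral_congr_ae ?_
        filter_upwards [ae_hyp] with q hq
        by_cases hb : q ∈ box C a ρ
        · simp only [hH]
          rw [← Finset.mul_sum]
          have h1 : ∑ γ ∈ T, Gop u (fun q' => cc κ (act (γ⁻¹ : Gam R) q')) q = 0 := by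
            rw [← Gop_sum u T fun γ _ => differentiableAt_of (hκg _) hq,
              ← Gop_const u 1 q]
            refine Gop_congr u ?_
            filter_upwards [box_nhds ha hb] with q' hq'
            have := (hT q' hq').2
            unfold cc
            exact_mod_cast this
          rw [h1, mul_zero]
        · exact Finset.sum_eq_zero fun γ _ => hH0 γ q hb

end Pool.Agent.Helper13.Ram5
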