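import Pool.Agent.Helper13.Ram5.Alg
import Pool.Agent.Helper64.Ram5.U1
import Pool.Agent.Helper68.Ram5.Diff

set_option autoImplicit false

namespace Pool.Agent.Helper13.Ram5

open Pool.Agent.Helper10.Ram5
open Pool.Agent.Helper68.Ram5 (gdot_comp_act measurePreserving_act)
open Pool.Agent.Helper64.Ram5 (contDiffOn_act1 entry_mem local_finite)
open MeasureTheory Topology
open scoped Quaternion

theorem isOpen_UH : IsOpen UH := isOpen_lt continuous_const continuous_snd

theorem act_inv_act (g : GL2H) (hg : nrd g.1 = 1) {p : Pt} (hp : p ∈ UH) :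
    act g⁻¹ (act g p) = p := by
  rw [← act_mul g⁻¹ g hg hp, inv_mul_cancel, act_one]

theorem act_act_inv (g : GL2H) (hg : nrd g.1 = 1) {p : Pt} (hp : p ∈ UH) :
    act g (act g⁻¹ p) = p := by
  rw [← act_mul g g⁻¹ (nrd_inv g hg) hp, mul_inv_cancel, act_one]

/-! ## functions supported in compact subsets of the upper half-space -/

theorem continuous_of_UH {E : Type*} [TopologicalSpace E] [Zero E] {f : Pt → E} {K : Set Pt}
    (hK : IsClosed K) (hKU : K ⊆ UH) (hf : ContinuousOn f UH) (h0 : ∀ p, p ∉ K → f p = 0) :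
    Continuous f := by
  rw [continuous_iff_continuousAt]
  intro p
  by_cases hp : p ∈ UH
  · exact hf.continuousAt (isOpen_UH.mem_nhds hp)
  · have hpK : p ∈ Kᶜ := fun h => hp (hKU h)
    have hev : f =ᶠ[𝓝 p] fun _ => 0 := by
      filter_upwards [hK.isOpen_compl.mem_nhds hpK] with q hq
      exact h0 q hq
    exact continuousAt_const.congr hev.symm

theorem contDiff_of_UH {E : Type*} [NormedAddCommGroup E] [NormedSpace ℝ E] {n : WithTop ℕ∞}
    {f : Pt → E} {K : Set Pt}
    (hK : IsClosed K) (hKU : K ⊆ UH) (hf : ContDiffOn ℝ n f UH) (h0 : ∀ p, p ∉ K → f p = 0) :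
    ContDiff ℝ n f := by
  rw [contDiff_iff_contDiffAt]
  intro p
  by_cases hp : p ∈ UH
  · exact hf.contDiffAt (isOpen_UH.mem_nhds hp)
  · have hpK : p ∈ Kᶜ := fun h => hp (hKU h)
    have hev : f =ᶠ[𝓝 p] fun _ => 0 := by
      filter_upwards [hK.isOpen_compl.mem_nhds hpK] with q hq
      exact h0 q hq
    exact contDiffAt_const.congr_of_eventuallyEq hev

theorem isHaar : (volume : Measure Pt).IsAddHaarMeasure := inferInstance

theorem integrable_vol {E : Type*} [NormedAddCommGroup E] {f : Pt → E} {K : Set Pt}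
    (hK : IsCompact K) (hf : Continuous f) (h0 : ∀ p, p ∉ K → f p = 0) :
    Integrable f (volume : Measure Pt) := by
  have := isHaar
  exact hf.integrable_of_hasCompactSupport (HasCompactSupport.intro hK h0)

theorem measurable_weight' : Measurable fun p : Pt => ENNReal.ofReal ((p.2 ^ 5)⁻¹) :=
  ((measurable_snd.pow_const 5).inv).ennreal_ofReal

theorem integral_hyp {E : Type*} [NormedAddCommGroup E] [NormedSpace ℝ E] (f : Pt → E) :
    ∫ p, f p ∂hyp = ∫ p in UH, ((p.2 ^ 5)⁻¹ : ℝ) • f p := by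
  unfold hyp
  rw [integral_withDensity_eq_integral_toReal_smul measurable_weight'
    (Filter.Eventually.of_forall fun _ => ENNReal.ofReal_lt_top)]
  refine setIntegral_congr_fun isOpen_UH.measurableSet fun p hp => ?_
  have hp' : (0 : ℝ) < p.2 := hp
  rw [ENNReal.toReal_ofReal (by positivity)]

theorem integrable_hyp {E : Type*} [NormedAddCommGroup E] [NormedSpace ℝ E] {f : Pt → E}
    {K : Set Pt} (hK : IsCompact K) (hKU : K ⊆ UH) (hf : ContinuousOn f UH)
    (h0 : ∀ p, p ∉ K → f p = 0) : Integrable f hyp := by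
  unfold hyp
  rw [integrable_withDensity_iff_integrable_smul' measurable_weight'
    (Filter.Eventually.of_forall fun _ => ENNReal.ofReal_lt_top)]
  have hc : Continuous fun p : Pt => ((p.2 ^ 5)⁻¹ : ℝ) • f p := by
    refine continuous_of_UH hK.isClosed hKU ?_ fun p hp => by rw [h0 p hp, smul_zero]
    refine ContinuousOn.smul ?_ hf
    refine ContinuousOn.inv₀ (by fun_prop) fun p hp => ?_
    have hp' : (0 : ℝ) < p.2 := hp
    positivity
  have hi : Integrable (fun p : Pt => ((p.2 ^ 5)⁻¹ : ℝ) • f p) (volume.restrict UH) :=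
    (integrable_vol hK hc fun p hp => by rw [h0 p hp, smul_zero]).restrict
  refine (integrable_congr ?_).mpr hi
  rw [Filter.EventuallyEq, ae_restrict_iff' isOpen_UH.measurableSet]
  refine Filter.Eventually.of_forall fun p hp => ?_
  have hp' : (0 : ℝ) < p.2 := hp
  rw [ENNReal.toReal_ofReal (by positivity)]

/-! ## continuity of the partial derivatives -/

theorem continuousOn_pd (e : Pt) {f : Pt → ℂ} (hf : ContDiffOn ℝ 1 f UH) :
    ContinuousOn (pd e f) UH := by
  have h := hf.continuousOn_fderiv_of_isOpen isOpen_UH le_rfl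
  exact h.clm_apply continuousOn_const

theorem contDiffOn_pd (e : Pt) {f : Pt → ℂ} (hf : ContDiffOn ℝ 2 f UH) :
    ContDiffOn ℝ 1 (pd e f) UH := by
  have h : ContDiffOn ℝ 1 (fderiv ℝ f) UH := by
    refine hf.fderiv_of_isOpen isOpen_UH ?_
    norm_num
  exact h.clm_apply contDiffOn_const

theorem differentiableAt_of {f : Pt → ℂ} (hf : ContDiffOn ℝ 1 f UH) {p : Pt} (hp : p ∈ UH) :
    DifferentiableAt ℝ f p :=
  (hf.contDiffAt (isOpen_UH.mem_nhds hp)).differentiableAt one_ne_zero

/-! ## Green's formula -/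

/-- integration by parts against a test function -/
theorem ibp {w φ : Pt → ℂ} (hw : ContDiffOn ℝ 1 w UH) (hφ : ContDiff ℝ 1 φ)
    (hc : HasCompactSupport φ) (hs : tsupport φ ⊆ UH) (e : Pt) :
    ∫ p in UH, w p * pd e φ p = - ∫ p in UH, pd e w p * φ p := by
  have := isHaar
  have h0 : ∀ p, p ∉ tsupport φ → φ p = 0 := fun p hp => image_eq_zero_of_notMem_tsupport hp
  have h1 : ∀ p, p ∉ tsupport φ → pd e φ p = 0 := by
    intro p hp
    unfold pd
    have : fderiv ℝ φ p = 0 := by
      by_contra hne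
      exact hp (tsupport_fderiv_subset ℝ (subset_tsupport _ hne))
    rw [this]; rfl
  have hφ' : Continuous (pd e φ) := by
    have := hφ.continuous_fderiv one_ne_zero
    exact this.clm_apply continuous_const
  have c1 : Continuous fun p => w p * pd e φ p :=
    continuous_of_UH hc.isClosed hs (hw.continuousOn.mul hφ'.continuousOn)
      fun p hp => by rw [h1 p hp, mul_zero]
  have c2 : Continuous fun p => pd e w p * φ p :=
    continuous_of_UH hc.isClosed hs ((continuousOn_pd e hw).mul hφ.continuous.continuousOn)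
      fun p hp => by rw [h0 p hp, mul_zero]
  have c3 : Continuous fun p => w p * φ p :=
    continuous_of_UH hc.isClosed hs (hw.continuousOn.mul hφ.continuous.continuousOn)
      fun p hp => by rw [h0 p hp, mul_zero]
  have key := integral_bilinear_hasLineDerivAt_right_eq_neg_left_of_integrable
    (μ := (volume : Measure Pt)) (f := w) (f' := pd e w) (g := φ) (g' := pd e φ) (v := e)
    (B := ContinuousLinearMap.mul ℝ ℂ)
    (by simpa using integrable_vol hc c2 fun p hp => by rw [h0 p hp, mul_zero])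
    (by simpa using integrable_vol hc c1 fun p hp => by rw [h1 p hp, mul_zero])
    (by simpa using integrable_vol hc c3 fun p hp => by rw [h0 p hp, mul_zero])
    (fun p hp => (differentiableAt_of hw (hs hp)).hasFDerivAt.hasLineDerivAt e)
    (fun p _ => (hφ.differentiable one_ne_zero p).hasFDerivAt.hasLineDerivAt e)
  simp only [ContinuousLinearMap.mul_apply'] at key
  have e1' : ∫ p in UH, w p * pd e φ p = ∫ p, w p * pd e φ p := by
    refine setIntegral_eq_integral_of_forall_compl_eq_zero fun p hp => ?_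
    rw [h1 p fun h => hp (hs h), mul_zero]
  have e2' : ∫ p in UH, pd e w p * φ p = ∫ p, pd e w p * φ p := by
    refine setIntegral_eq_integral_of_forall_compl_eq_zero fun p hp => ?_
    rw [h0 p fun h => hp (hs h), mul_zero]
  rw [e1', e2']
  exact key


theorem pd_zero_off (e : Pt) {φ : Pt → ℂ} {p : Pt} (hp : p ∉ tsupport φ) : pd e φ p = 0 := by
  unfold pd
  have : fderiv ℝ φ p = 0 := by
    by_contra hne
    exact hp (tsupport_fderiv_subset ℝ (subset_tsupport _ hne))
  rw [this]; rfl

/-- the Euclidean gradient of `u` divided by the cube of the height -/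
noncomputable def wv (e : Pt) (u : Pt → ℂ) (p : Pt) : ℂ := ((p.2 ^ 3)⁻¹ : ℝ) • pd e u p

theorem contDiffOn_inv_height : ContDiffOn ℝ 1 (fun p : Pt => (p.2 ^ 3)⁻¹) UH :=
  (contDiff_snd.pow 3).contDiffOn.inv fun p hp => by
    have hp' : (0 : ℝ) < p.2 := hp
    positivity

theorem contDiffOn_wv (e : Pt) {u : Pt → ℂ} (hu : ContDiffOn ℝ 2 u UH) :
    ContDiffOn ℝ 1 (wv e u) UH :=
  contDiffOn_inv_height.smul (contDiffOn_pd e hu)

theorem pd_wv (e : Pt) {u : Pt → ℂ} (hu : ContDiffOn ℝ 2 u UH) {p : Pt} (hp : p ∈ UH) :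
    pd e (wv e u) p = ((p.2 ^ 3)⁻¹ : ℝ) • pd e (pd e u) p
      - (3 * e.2 * (p.2 ^ 4)⁻¹ : ℝ) • pd e u p := by
  have hp' : (0 : ℝ) < p.2 := hp
  have h0 : HasDerivAt (fun t : ℝ => (t ^ 3)⁻¹) (-(3 * (p.2 ^ 4)⁻¹)) p.2 := by
    have h := (hasDerivAt_pow 3 p.2).inv (by positivity)
    refine h.congr_deriv ?_
    field_simp
    norm_num
    ring
  have h1 : HasFDerivAt (fun q : Pt => (q.2 ^ 3)⁻¹)
      ((-(3 * (p.2 ^ 4)⁻¹) : ℝ) • ContinuousLinearMap.snd ℝ ℍ[ℝ] ℝ) p := by
    have := h0.comp_hasFDerivAt p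
      (hasFDerivAt_snd (𝕜 := ℝ) (p := p) : HasFDerivAt (fun q : Pt => q.2) _ p)
    exact this
  have h2 := (differentiableAt_of (contDiffOn_pd e hu) hp).hasFDerivAt
  have h3 := h1.smul h2
  have h4 : fderiv ℝ (wv e u) p = _ := h3.fderiv
  unfold pd at h4 ⊢
  rw [h4]
  simp only [add_apply, smul_apply,
    ContinuousLinearMap.smulRight_apply, ContinuousLinearMap.coe_snd', smul_eq_mul]
  rw [sub_eq_add_neg, ← neg_smul]
  congr 2
  ring

theorem integral_add3 {f g h : Pt → ℂ} {μ : Measure Pt} (hf : Integrable f μ)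
    (hg : Integrable g μ) (hh : Integrable h μ) :
    (∫ p, f p ∂μ) + (∫ p, g p ∂μ) + (∫ p, h p ∂μ) = ∫ p, (f p + g p + h p) ∂μ := by
  have e1 : ∫ p, (f p + g p) ∂μ = (∫ p, f p ∂μ) + (∫ p, g p ∂μ) := integral_add hf hg
  have e2 : ∫ p, ((f p + g p) + h p) ∂μ = (∫ p, (f p + g p) ∂μ) + (∫ p, h p ∂μ) :=
    integral_add (hf.add hg) hh
  rw [e2, e1]

theorem dir_snd (k : Fin 5) : (dir k).2 = if k = 4 then 1 else 0 := by
  fin_cases k <;> simp [dir]

theorem green {u : Pt → ℂ} (hu : ContDiffOn ℝ 2 u UH) (lam : ℂ)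
    (heig : ∀ p ∈ UH, lap u p = -lam * u p) : WeakEig lam u := by
  intro φ hφ hc hs
  have h0 : ∀ p, p ∉ tsupport φ → φ p = 0 := fun p hp => image_eq_zero_of_notMem_tsupport hp
  have hu1 : ContDiffOn ℝ 1 u UH := hu.of_le (by norm_num)
  have hk := fun e => ibp (contDiffOn_wv e hu) hφ hc hs e
  have hφ' : ∀ e, Continuous (pd e φ) := by
    intro e
    have := hφ.continuous_fderiv one_ne_zero
    exact this.clm_apply continuous_const
  have hi : ∀ e, Integrable (fun p => wv e u p * pd e φ p) (volume.restrict UH) := by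
    intro e
    have z : ∀ p, p ∉ tsupport φ → wv e u p * pd e φ p = 0 := fun p hp => by
      rw [pd_zero_off e hp, mul_zero]
    have c : Continuous fun p => wv e u p * pd e φ p := continuous_of_UH hc.isClosed hs
      ((contDiffOn_wv e hu).continuousOn.mul (hφ' e).continuousOn) z
    exact (integrable_vol hc c z).restrict
  have hj : ∀ e, Integrable (fun p => pd e (wv e u) p * φ p) (volume.restrict UH) := by
    intro e
    have z : ∀ p, p ∉ tsupport φ → pd e (wv e u) p * φ p = 0 := fun p hp => by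
      rw [h0 p hp, mul_zero]
    have c : Continuous fun p => pd e (wv e u) p * φ p := continuous_of_UH hc.isClosed hs
      ((continuousOn_pd e (contDiffOn_wv e hu)).mul hφ.continuous.continuousOn) z
    exact (integrable_vol hc c z).restrict
  rw [integral_hyp, integral_hyp, ← integral_const_mul]
  have hL : ∫ p in UH, ((p.2 ^ 5)⁻¹ : ℝ) • gdot u φ p
      = ∑ k : Fin 5, ∫ p in UH, wv (dir k) u p * pd (dir k) φ p := by
    rw [← integral_finsetSum _ fun k _ => hi (dir k)]
    refine setIntegral_congr_fun isOpen_UH.measurableSet fun p hp => ?_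
    have hp' : (0 : ℝ) < p.2 := hp
    have hpc : (p.2 : ℂ) ≠ 0 := by exact_mod_cast hp'.ne'
    simp only [gdot, wv, Complex.real_smul]
    rw [Finset.mul_sum, Finset.mul_sum]
    refine Finset.sum_congr rfl fun k _ => ?_
    push_cast
    field_simp
  have hR : ∫ p in UH, lam * (((p.2 ^ 5)⁻¹ : ℝ) • (u p * φ p))
      = -(∑ k : Fin 5, ∫ p in UH, pd (dir k) (wv (dir k) u) p * φ p) := by
    rw [← integral_finsetSum _ fun k _ => hj (dir k), ← integral_neg]
    refine setIntegral_congr_fun isOpen_UH.measurableSet fun p hp => ?_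
    have hp' : (0 : ℝ) < p.2 := hp
    have hpc : (p.2 : ℂ) ≠ 0 := by exact_mod_cast hp'.ne'
    have hE := heig p hp
    simp only [pd_wv _ hu hp, Complex.real_smul, dir_snd]
    have hE' : lam * u p = -(((p.2 : ℂ)) ^ 2 * (∑ k : Fin 5, pd (dir k) (pd (dir k) u) p)
        - 3 * (p.2 : ℂ) * pd (dir 4) u p) := by
      unfold lap at hE
      linear_combination hE
    have h7 : lam * (((p.2 : ℂ) ^ 5)⁻¹ * (u p * φ p)) = ((p.2 : ℂ) ^ 5)⁻¹ * (lam * u p) * φ p := by
      ring
    push_cast
    rw [h7, hE']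
    simp only [Fin.sum_univ_five]
    simp only [show ¬ ((0 : Fin 5) = 4) by decide, show ¬ ((1 : Fin 5) = 4) by decide,
      show ¬ ((2 : Fin 5) = 4) by decide, show ¬ ((3 : Fin 5) = 4) by decide, if_false, if_true]
    push_cast
    field_simp
    ring
  rw [hL, hR, ← Finset.sum_neg_distrib]
  exact Finset.sum_congr rfl fun k _ => hk (dir k)

/-! ## invariance of the weak eigenvalue equation -/

theorem ae_hyp : ∀ᵐ p ∂hyp, p ∈ UH := by
  unfold hyp
  exact (withDensity_absolutelyContinuous _ _) (ae_restrict_mem isOpen_UH.measurableSet)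

theorem integral_act (g : GL2H) (hg : nrd g.1 = 1) {F : Pt → ℂ} (hF : AEStronglyMeasurable F hyp) :
    ∫ p, F (act g p) ∂hyp = ∫ p, F p ∂hyp := by
  have hmp := measurePreserving_act g hg
  have hF' : AEStronglyMeasurable F (Measure.map (act g) hyp) := by rw [hmp.map_eq]; exact hF
  have h := integral_map hmp.measurable.aemeasurable hF'
  rw [hmp.map_eq] at h
  exact h.symm

theorem continuousOn_gdot {u v : Pt → ℂ} (hu : ContDiffOn ℝ 1 u UH) (hv : ContDiffOn ℝ 1 v UH) :
    ContinuousOn (gdot u v) UH := by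
  have h : ContinuousOn (fun p : Pt => (p.2 : ℂ) ^ 2) UH := by fun_prop
  exact h.mul (continuousOn_finsetSum _ fun k _ =>
    (continuousOn_pd (dir k) hu).mul (continuousOn_pd (dir k) hv))

theorem pd_congr (e : Pt) {f h : Pt → ℂ} {p : Pt} (hfh : f =ᶠ[𝓝 p] h) : pd e f p = pd e h p := by
  unfold pd; rw [hfh.fderiv_eq]

theorem gdot_congr {f h f' h' : Pt → ℂ} {p : Pt} (hf : f =ᶠ[𝓝 p] f') (hh : h =ᶠ[𝓝 p] h') :
    gdot f h p = gdot f' h' p := by
  unfold gdot
  congr 1
  exact Finset.sum_congr rfl fun k _ => by rw [pd_congr _ hf, pd_congr _ hh]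

theorem gdot_zero_off {u φ : Pt → ℂ} {p : Pt} (hp : p ∉ tsupport φ) : gdot u φ p = 0 := by
  unfold gdot
  rw [Finset.sum_eq_zero fun k _ => by rw [pd_zero_off _ hp, mul_zero], mul_zero]

theorem aesm_of {f : Pt → ℂ} (hf : ContinuousOn f UH) : AEStronglyMeasurable f hyp := by
  have h : AEStronglyMeasurable f (volume.restrict UH) :=
    hf.aestronglyMeasurable isOpen_UH.measurableSet
  unfold hyp
  exact h.mono_ac (withDensity_absolutelyContinuous _ _)

open Classical in
theorem weakEig_comp (g : GL2H) (hg : nrd g.1 = 1) {u : Pt → ℂ} (hu : ContDiffOn ℝ 1 u UH)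
    {lam : ℂ} (h : WeakEig lam u) : WeakEig lam (fun p => u (act g p)) := by
  intro φ hφ hc hs
  set ψ : Pt → ℂ := fun p => if p ∈ UH then φ (act g⁻¹ p) else 0 with hψ
  set K : Set Pt := act g '' tsupport φ with hK
  have hact : ContDiffOn ℝ 1 (act g⁻¹) UH := contDiffOn_act1 g⁻¹
  have hact' : ContDiffOn ℝ 1 (act g) UH := contDiffOn_act1 g
  have hKc : IsCompact K := hc.isCompact.image_of_continuousOn (hact'.continuousOn.mono hs)
  have hKU : K ⊆ UH := by
    rintro _ ⟨p, hp, rfl⟩
    exact act_mem g (hs hp)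
  have hψ0 : ∀ p, p ∉ K → ψ p = 0 := by
    intro p hp
    simp only [hψ]
    split_ifs with hpU
    · apply image_eq_zero_of_notMem_tsupport
      intro hmem
      exact hp ⟨_, hmem, act_act_inv g hg hpU⟩
    · rfl
  have hψU : ContDiffOn ℝ 1 ψ UH := by
    have : ContDiffOn ℝ 1 (fun p => φ (act g⁻¹ p)) UH := hφ.comp_contDiffOn hact
    refine this.congr fun p hp => ?_
    simp only [hψ, hp, if_true]
  have hψC : ContDiff ℝ 1 ψ := contDiff_of_UH hKc.isClosed hKU hψU hψ0
  have hψc : HasCompactSupport ψ := HasCompactSupport.intro hKc hψ0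
  have hψs : tsupport ψ ⊆ UH := by
    refine subset_trans (closure_minimal ?_ hKc.isClosed) hKU
    intro p hp
    by_contra hn
    exact hp (hψ0 p hn)
  have hkey := h ψ hψC hψc hψs
  have hback : ∀ p ∈ UH, ψ (act g p) = φ p := by
    intro p hp
    simp only [hψ, act_mem g hp, if_true]
    rw [act_inv_act g hg hp]
  have i1 : ∫ p, gdot (fun p => u (act g p)) φ p ∂hyp = ∫ p, gdot u ψ p ∂hyp := by
    rw [← integral_act g hg (aesm_of (continuousOn_gdot hu hψU))]
    refine integral_congr_ae ?_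
    filter_upwards [ae_hyp] with p hp
    rw [← gdot_comp_act g hg hp (differentiableAt_of hu (act_mem g hp))
      (differentiableAt_of hψU (act_mem g hp))]
    refine gdot_congr (Filter.EventuallyEq.refl _ _) ?_
    filter_upwards [isOpen_UH.mem_nhds hp] with q hq
    exact (hback q hq).symm
  have i2 : ∫ p, u (act g p) * φ p ∂hyp = ∫ p, u p * ψ p ∂hyp := by
    rw [← integral_act g hg (F := fun p => u p * ψ p)
      (aesm_of (hu.continuousOn.mul hψU.continuousOn))]
    refine integral_congr_ae ?_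
    filter_upwards [ae_hyp] with p hp
    rw [hback p hp]
  rw [i1, i2]
  exact hkey

end Pool.Agent.Helper13.Ram5
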